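import Pool.Agent.X247.Gf.Fin

set_option autoImplicit false

/-!
# Family equivalence of context-free grammars (grammar forms) is undecidable

A context-free grammar `(N, T, P, S)` without empty right-hand sides is given by the finite lists of
its nonterminals, of its terminals and of its productions, and by its start symbol; letters are
natural numbers (`Gram`, `Proper`).  `Interp G G'` says that `G'` is an interpretation of `G`,
`Fam G` is the grammatical family of `G`.

* No algorithm decides, for two proper grammars, whether their grammatical families are equal.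
* This remains true for linear grammars over a fixed terminal alphabet that have the same
  nonterminals, the same terminals and the same start symbol and such that every production of the
  first one is a production of the second one.
-/

namespace Pool.Agent.Results.MP_3cd25e_lc.FamilyEquivalenceUndecidable

open Pool.Agent.X247.Gf

theorem core : ∃ T : List ℕ, ¬ ∃ f : Gram × Gram → Bool, Computable f ∧
    ∀ G₁ G₂ : Gram, Proper G₁ → Proper G₂ → Linear G₁ → Linear G₂ →
      tms G₁ = T → tms G₂ = T → nts G₁ = nts G₂ → start G₁ = start G₂ →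
      (∀ r ∈ prods G₁, r ∈ prods G₂) → (f (G₁, G₂) = true ↔ Fam G₁ = Fam G₂) := by
  obtain ⟨m, k, g, h, hg, hh, a, b, c, -, H⟩ := exists_fin
  refine ⟨tl m k, ?_⟩
  rintro ⟨f, hf, hdec⟩
  let W : ℕ → Prop := fun n =>
    (Nat.Partrec.Code.eval (Denumerable.ofNat Nat.Partrec.Code n) 0).Dom
  have hW : REPred W := by
    have h1 := ComputablePred.halting_problem_re 0
    have h2 : Partrec fun n : ℕ => Part.assert
        ((Nat.Partrec.Code.eval (Denumerable.ofNat Nat.Partrec.Code n) 0).Dom)
        (fun _ => Part.some ()) :=
      Partrec.comp (f := fun c : Nat.Partrec.Code => Part.assert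
        ((Nat.Partrec.Code.eval c 0).Dom) (fun _ => Part.some ())) h1 (Computable.ofNat _)
    exact h2
  obtain ⟨F, hF, hW'⟩ := H W hW
  let w : ℕ → List (Fin m) := fun n => a ++ (List.range (F n)).flatMap (fun _ => b) ++ c
  have hw : Computable w := by
    have h1 : Primrec fun q : ℕ => a ++ (List.range q).flatMap (fun _ => b) ++ c :=
      Primrec.list_append.comp (Primrec.list_append.comp (Primrec.const _)
        (Primrec.list_flatMap Primrec.list_range (Primrec.const b).to₂)) (Primrec.const _)
    exact h1.to_comp.comp hF
  have hcomp : Computable fun n => f ((dat g h (w n)).G1, (dat g h (w n)).G2) :=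
    hf.comp (Computable.pair (prim_G1.to_comp.comp hw) (prim_G2.to_comp.comp hw))
  have hspec : ∀ n, f ((dat g h (w n)).G1, (dat g h (w n)).G2) = true ↔ ¬ W n := by
    intro n
    have hok := dat_ok (g := g) (h := h) (w := w n)
    have hlin1 : Linear (dat g h (w n)).G1 := fun r hr => hok.linear r (P1_sub hr)
    rw [hdec _ _ hok.proper.1 hok.proper.2 hlin1 hok.linear rfl rfl rfl rfl
      (fun r hr => P1_sub hr), red_iff hg hh, ← hW' n]
  have hnot : ComputablePred fun n => ¬ W n :=
    ComputablePred.computable_iff.2 ⟨_, hcomp, funext fun n => propext (hspec n).symm⟩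
  have hcW : ComputablePred W := by
    have := hnot.not
    simpa using this
  refine ComputablePred.halting_problem 0 ?_
  have h2 : ComputablePred fun c : Nat.Partrec.Code => W (Encodable.encode c) := by
    obtain ⟨hd, hc⟩ := hcW
    exact ⟨fun c => hd (Encodable.encode c), hc.comp Computable.encode⟩
  simpa [W] using h2

theorem result :
    (¬ ∃ f : Gram × Gram → Bool, Computable f ∧
      ∀ G₁ G₂ : Gram, Proper G₁ → Proper G₂ → (f (G₁, G₂) = true ↔ Fam G₁ = Fam G₂)) ∧
    (∃ T : List ℕ, ¬ ∃ f : Gram × Gram → Bool, Computable f ∧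
      ∀ G₁ G₂ : Gram, Proper G₁ → Proper G₂ → Linear G₁ → Linear G₂ →
        tms G₁ = T → tms G₂ = T → nts G₁ = nts G₂ → start G₁ = start G₂ →
        (∀ r ∈ prods G₁, r ∈ prods G₂) → (f (G₁, G₂) = true ↔ Fam G₁ = Fam G₂)) := by
  refine ⟨?_, core⟩
  rintro ⟨f, hf, hdec⟩
  obtain ⟨T, hT⟩ := core
  exact hT ⟨f, hf, fun G₁ G₂ h1 h2 _ _ _ _ _ _ _ => hdec G₁ G₂ h1 h2⟩

end Pool.Agent.Results.MP_3cd25e_lc.FamilyEquivalenceUndecidable
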